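import Mathlib

open Set Filter Topology

namespace Pool.Agent.Results.MP_21d915_nt.NoCommonTower

/-- The levels `EL_n` of the exponential-logarithmic tower with base `b` (`b ≠ 0`, `b ≠ 1`), as in
the problem: `EL_0 = ℚ`, and `EL_{n+1}` is the algebraic closure inside `ℂ` of the subfield
generated by `EL_n`, by all `b ^ x` with `x ∈ EL_n` (principal value `b ^ x = exp (log b * x)`), and
by all `w ∈ ℂ` with `b ^ w = y` for some nonzero `y ∈ EL_n` (all base-`b` logarithms of `y`). -/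
noncomputable def ELlevel (b : ℂ) : ℕ → Subfield ℂ
  | 0 => (algebraMap ℚ ℂ).fieldRange
  | n + 1 =>
      (algebraicClosure
        (Subfield.closure ((ELlevel b n : Set ℂ) ∪ {z | ∃ x ∈ ELlevel b n, z = b ^ x} ∪
          {w | ∃ y ∈ ELlevel b n, y ≠ 0 ∧ b ^ w = y})) ℂ).toSubfield

/-- The exponential-logarithmic tower `EL^{(b)}`: the union of all levels `EL_n`. -/
def ELtower (b : ℂ) : Set ℂ := {z | ∃ n : ℕ, z ∈ ELlevel b n}

/-- A set-valued function of `t` all of whose values are values at `t` of members, analytic at `t`,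
of one fixed countable set of functions. -/
def Cov (A : ℂ → Set ℂ) : Prop :=
  ∃ C : Set (ℂ → ℂ), C.Countable ∧ ∀ t, ∀ x ∈ A t, ∃ f ∈ C, AnalyticAt ℂ f t ∧ f t = x

theorem Cov.mono {A B : ℂ → Set ℂ} (h : Cov B) (hAB : ∀ t, A t ⊆ B t) : Cov A := by
  obtain ⟨C, hC, h⟩ := h
  exact ⟨C, hC, fun t x hx => h t x (hAB t hx)⟩

theorem Cov.union {A B : ℂ → Set ℂ} (hA : Cov A) (hB : Cov B) : Cov (fun t => A t ∪ B t) := by
  obtain ⟨C, hC, hA⟩ := hA
  obtain ⟨D, hD, hB⟩ := hB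
  refine ⟨C ∪ D, hC.union hD, ?_⟩
  rintro t x (hx | hx)
  · obtain ⟨f, hf, h⟩ := hA t x hx
    exact ⟨f, Or.inl hf, h⟩
  · obtain ⟨f, hf, h⟩ := hB t x hx
    exact ⟨f, Or.inr hf, h⟩

theorem Cov.iUnion {A : ℕ → ℂ → Set ℂ} (hA : ∀ n, Cov (A n)) : Cov (fun t => ⋃ n, A n t) := by
  choose C hC h using hA
  refine ⟨⋃ n, C n, countable_iUnion hC, ?_⟩
  intro t x hx
  obtain ⟨n, hn⟩ := mem_iUnion.1 hx
  obtain ⟨f, hf, h'⟩ := h n t x hn
  exact ⟨f, mem_iUnion.2 ⟨n, hf⟩, h'⟩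

/-- Local-to-global principle (Lindelöf). -/
theorem exists_countable_of_local (Z : Set (ℂ × ℂ))
    (h : ∀ z ∈ Z, ∃ g : ℂ → ℂ, ∀ᶠ v in 𝓝[Z] z, AnalyticAt ℂ g v.1 ∧ g v.1 = v.2) :
    ∃ C : Set (ℂ → ℂ), C.Countable ∧ ∀ v ∈ Z, ∃ g ∈ C, AnalyticAt ℂ g v.1 ∧ g v.1 = v.2 := by
  classical
  have h' : ∀ z : ℂ × ℂ, ∃ g : ℂ → ℂ, z ∈ Z → ∀ᶠ v in 𝓝[Z] z, AnalyticAt ℂ g v.1 ∧ g v.1 = v.2 := by
    intro z
    by_cases hz : z ∈ Z
    · obtain ⟨g, hg⟩ := h z hz
      exact ⟨g, fun _ => hg⟩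
    · exact ⟨fun _ => 0, fun hz' => absurd hz' hz⟩
  choose g hg using h'
  obtain ⟨T, hTZ, hTc, hT⟩ := TopologicalSpace.countable_cover_nhdsWithin
    (f := fun z => {v : ℂ × ℂ | AnalyticAt ℂ (g z) v.1 ∧ g z v.1 = v.2}) (s := Z)
    (fun z hz => hg z hz)
  refine ⟨g '' T, hTc.image g, ?_⟩
  intro v hv
  obtain ⟨z, hz, hvz⟩ := mem_iUnion₂.1 (hT hv)
  exact ⟨g z, mem_image_of_mem g hz, hvz⟩

/-- The simple zeros of one function of two variables are covered by countably many graphs of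
analytic functions (implicit function theorem). -/
theorem exists_countable_simple_zeros (F : ℂ × ℂ → ℂ) :
    ∃ C : Set (ℂ → ℂ), C.Countable ∧ ∀ v : ℂ × ℂ, AnalyticAt ℂ F v → F v = 0 →
      deriv (fun x => F (v.1, x)) v.2 ≠ 0 → ∃ g ∈ C, AnalyticAt ℂ g v.1 ∧ g v.1 = v.2 := by
  obtain ⟨C, hC, h⟩ := exists_countable_of_local
    {v : ℂ × ℂ | AnalyticAt ℂ F v ∧ F v = 0 ∧ deriv (fun x => F (v.1, x)) v.2 ≠ 0} (by
      rintro z ⟨hz1, hz2, hz3⟩
      have cdf : ContDiffAt ℂ ⊤ F z := hz1.contDiffAt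
      have pn : (⊤ : WithTop ℕ∞) ≠ 0 := by simp
      have hd : HasDerivAt (fun x => F (z.1, x)) (fderiv ℂ F z (0, 1)) z.2 := by
        have h1 : HasFDerivAt F (fderiv ℂ F z) (z.1, z.2) := hz1.differentiableAt.hasFDerivAt
        have h2 : HasDerivAt (fun x : ℂ => (z.1, x)) ((0 : ℂ), (1 : ℂ)) z.2 :=
          (hasDerivAt_const z.2 z.1).prodMk (hasDerivAt_id z.2)
        exact h1.comp_hasDerivAt z.2 h2
      have hne : fderiv ℂ F z (0, 1) ≠ 0 := by
        rw [← hd.deriv]; exact hz3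
      have if₂ : (fderiv ℂ F z ∘L .inr ℂ ℂ ℂ).IsInvertible := by
        refine ⟨ContinuousLinearEquiv.unitsEquivAut ℂ (Units.mk0 _ hne), ?_⟩
        ext
        simp
      refine ⟨cdf.implicitFunction pn if₂, ?_⟩
      have e1 := cdf.eventually_apply_eq_iff_implicitFunction pn if₂
      have e2 : AnalyticAt ℂ (cdf.implicitFunction pn if₂) z.1 :=
        (cdf.contDiffAt_implicitFunction pn if₂).analyticAt
      have e3 : ∀ᶠ v : ℂ × ℂ in 𝓝 z, AnalyticAt ℂ (cdf.implicitFunction pn if₂) v.1 :=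
        continuousAt_fst.eventually e2.eventually_analyticAt
      filter_upwards [mem_nhdsWithin_of_mem_nhds e1, mem_nhdsWithin_of_mem_nhds e3,
        self_mem_nhdsWithin] with v h1 h2 h3
      refine ⟨h2, h1.1 ?_⟩
      rw [h3.2.1, hz2])
  exact ⟨C, hC, fun v h1 h2 h3 => h v ⟨h1, h2, h3⟩⟩


theorem Cov.exp {A : ℂ → Set ℂ} (hA : Cov A) :
    Cov (fun t => {z | ∃ x ∈ A t, z = Complex.exp (t * x)}) := by
  obtain ⟨C, hC, h⟩ := hA
  refine ⟨(fun f : ℂ → ℂ => fun t => Complex.exp (t * f t)) '' C, hC.image _, ?_⟩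
  rintro t z ⟨x, hx, rfl⟩
  obtain ⟨f, hf, hfa, hft⟩ := h t x hx
  refine ⟨_, mem_image_of_mem _ hf, ?_, ?_⟩
  · exact (analyticAt_id.mul hfa).cexp
  · simp [hft]

theorem Cov.log {A : ℂ → Set ℂ} (hA : Cov A) :
    Cov (fun t => {w | t ≠ 0 ∧ Complex.exp (t * w) ∈ A t}) := by
  obtain ⟨C, hC, h⟩ := hA
  choose D hD hD' using fun f : ℂ → ℂ =>
    exists_countable_simple_zeros (fun v : ℂ × ℂ => Complex.exp (v.1 * v.2) - f v.1)
  refine ⟨⋃ f ∈ C, D f, hC.biUnion (fun f _ => hD f), ?_⟩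
  rintro t w ⟨ht, hw⟩
  obtain ⟨f, hf, hfa, hft⟩ := h t _ hw
  have h1 : AnalyticAt ℂ (fun v : ℂ × ℂ => Complex.exp (v.1 * v.2) - f v.1) (t, w) := by
    refine (analyticAt_fst.mul analyticAt_snd).cexp.sub ?_
    exact AnalyticAt.fun_comp (g := f) (f := Prod.fst) (x := (t, w)) hfa analyticAt_fst
  have h2 : HasDerivAt (fun x : ℂ => Complex.exp (t * x) - f t) (Complex.exp (t * w) * t) w := by
    have := ((hasDerivAt_id w).const_mul t).cexp.sub_const (f t)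
    simpa using this
  obtain ⟨g, hg, hg'⟩ := hD' f (t, w) h1 (by simp [hft]) (by
    show deriv (fun x : ℂ => Complex.exp (t * x) - f t) w ≠ 0
    rw [h2.deriv]
    exact mul_ne_zero (Complex.exp_ne_zero _) ht)
  exact ⟨g, mem_biUnion hf hg, hg'⟩

theorem Cov.closure {A : ℂ → Set ℂ} (hA : Cov A) :
    Cov (fun t => (Subfield.closure (A t) : Set ℂ)) := by
  obtain ⟨C, hC, h⟩ := hA
  let R : Subring (ℂ → ℂ) := (MvPolynomial.aeval (R := ℤ) (fun c : C => (c : ℂ → ℂ))).range.toSubring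
  have hR : (R : Set (ℂ → ℂ)).Countable := by
    have hc : Countable C := hC.to_subtype
    have : Countable (MvPolynomial C ℤ) := by
      rw [← Cardinal.mk_le_aleph0_iff]
      refine MvPolynomial.cardinalMk_le_max_lift.trans ?_
      simp [Cardinal.mk_le_aleph0]
    exact countable_range (MvPolynomial.aeval (R := ℤ) (fun c : C => (c : ℂ → ℂ)))
  have hCR : C ⊆ R := by
    intro f hf
    exact ⟨MvPolynomial.X ⟨f, hf⟩, by simp⟩
  have key : ∀ t, ∀ x ∈ Subring.closure (A t), ∃ f ∈ R, AnalyticAt ℂ f t ∧ f t = x := by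
    intro t x hx
    induction hx using Subring.closure_induction with
    | mem x hx =>
      obtain ⟨f, hf, h'⟩ := h t x hx
      exact ⟨f, hCR hf, h'⟩
    | zero => exact ⟨0, R.zero_mem, analyticAt_const, rfl⟩
    | one => exact ⟨1, R.one_mem, analyticAt_const, rfl⟩
    | add x y _ _ hx hy =>
      obtain ⟨f, hf, hfa, rfl⟩ := hx
      obtain ⟨g, hg, hga, rfl⟩ := hy
      exact ⟨f + g, R.add_mem hf hg, hfa.add hga, rfl⟩
    | neg x _ hx =>
      obtain ⟨f, hf, hfa, rfl⟩ := hx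
      exact ⟨-f, R.neg_mem hf, hfa.neg, rfl⟩
    | mul x y _ _ hx hy =>
      obtain ⟨f, hf, hfa, rfl⟩ := hx
      obtain ⟨g, hg, hga, rfl⟩ := hy
      exact ⟨f * g, R.mul_mem hf hg, hfa.mul hga, rfl⟩
  refine ⟨image2 (fun f g : ℂ → ℂ => f / g) R R, hR.image2 hR _, ?_⟩
  intro t x hx
  obtain ⟨y, hy, z, hz, rfl⟩ := Subfield.mem_closure_iff.1 hx
  by_cases hz0 : z = 0
  · refine ⟨0 / 1, mem_image2_of_mem R.zero_mem R.one_mem, ?_, ?_⟩
    · simp only [div_one]; exact analyticAt_const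
    · simp [hz0]
  · obtain ⟨f, hf, hfa, rfl⟩ := key t y hy
    obtain ⟨g, hg, hga, rfl⟩ := key t z hz
    exact ⟨f / g, mem_image2_of_mem hf hg, hfa.div hga hz0, rfl⟩

theorem Cov.algClosure {K : ℂ → Subfield ℂ} (hK : Cov (fun t => (K t : Set ℂ))) :
    Cov (fun t => ((algebraicClosure (K t) ℂ).toSubfield : Set ℂ)) := by
  obtain ⟨C, hC, h⟩ := hK
  have : Countable C := hC.to_subtype
  choose D hD hD' using fun φ : (Σ n : ℕ, (Fin n → C)) =>
    exists_countable_simple_zeros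
      (fun v : ℂ × ℂ => ∑ j : Fin φ.1, (φ.2 j : ℂ → ℂ) v.1 * v.2 ^ (j : ℕ))
  refine ⟨⋃ φ, D φ, countable_iUnion hD, ?_⟩
  intro t x hx
  have hx' : IsIntegral (K t) x := hx
  set p := minpoly (K t) x with hp
  have hcoef : ∀ j : ℕ, ∃ f ∈ C, AnalyticAt ℂ f t ∧ f t = (p.coeff j : ℂ) :=
    fun j => h t _ (p.coeff j).2
  choose f hf hfa hft using hcoef
  let φ : (Σ n : ℕ, (Fin n → C)) := ⟨p.natDegree + 1, fun j => ⟨f j, hf j⟩⟩
  have hF : ∀ y : ℂ, (∑ j : Fin φ.1, (φ.2 j : ℂ → ℂ) t * y ^ (j : ℕ)) = Polynomial.aeval y p := by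
    intro y
    rw [Polynomial.aeval_eq_sum_range, ← Fin.sum_univ_eq_sum_range
      (fun j => p.coeff j • y ^ j)]
    refine Finset.sum_congr rfl ?_
    intro j _
    simp only [φ, hft]
    rfl
  have h1 : AnalyticAt ℂ
      (fun v : ℂ × ℂ => ∑ j : Fin φ.1, (φ.2 j : ℂ → ℂ) v.1 * v.2 ^ (j : ℕ)) (t, x) := by
    refine Finset.analyticAt_fun_sum _ ?_
    intro j _
    refine AnalyticAt.mul ?_ (analyticAt_snd.pow _)
    exact AnalyticAt.fun_comp (g := (φ.2 j : ℂ → ℂ)) (f := Prod.fst) (x := (t, x)) (hfa j)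
      analyticAt_fst
  have hsep : p.Separable := (minpoly.irreducible hx').separable
  have h3 : Polynomial.aeval x (Polynomial.derivative p) ≠ 0 :=
    hsep.aeval_derivative_ne_zero (minpoly.aeval _ _)
  obtain ⟨g, hg, hg'⟩ := hD' φ (t, x) h1 (by
    show (∑ j : Fin φ.1, (φ.2 j : ℂ → ℂ) t * x ^ (j : ℕ)) = 0
    rw [hF, hp, minpoly.aeval]) (by
    show deriv (fun y : ℂ => ∑ j : Fin φ.1, (φ.2 j : ℂ → ℂ) t * y ^ (j : ℕ)) x ≠ 0
    simp only [hF]
    rw [Polynomial.deriv_aeval]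
    exact h3)
  exact ⟨g, mem_iUnion.2 ⟨φ, hg⟩, hg'⟩

theorem cov_level (n : ℕ) :
    Cov (fun t => {x | t ≠ 0 ∧ Complex.log (Complex.exp t) = t ∧ x ∈ ELlevel (Complex.exp t) n}) := by
  induction n with
  | zero =>
    refine ⟨range (fun q : ℚ => fun _ : ℂ => (q : ℂ)), countable_range _, ?_⟩
    rintro t x ⟨_, _, hx⟩
    obtain ⟨q, rfl⟩ := hx
    exact ⟨_, mem_range_self q, analyticAt_const, rfl⟩
  | succ n ih =>
    have h1 := ((ih.union ih.exp).union ih.log).closure.algClosure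
    refine h1.mono ?_
    rintro t x ⟨ht, htl, hx⟩
    have hsub : ((ELlevel (Complex.exp t) n : Set ℂ) ∪
          {z | ∃ x ∈ ELlevel (Complex.exp t) n, z = Complex.exp t ^ x} ∪
          {w | ∃ y ∈ ELlevel (Complex.exp t) n, y ≠ 0 ∧ Complex.exp t ^ w = y}) ⊆
        ({x | t ≠ 0 ∧ Complex.log (Complex.exp t) = t ∧ x ∈ ELlevel (Complex.exp t) n} ∪
          {z | ∃ x ∈ {x | t ≠ 0 ∧ Complex.log (Complex.exp t) = t ∧
            x ∈ ELlevel (Complex.exp t) n}, z = Complex.exp (t * x)}) ∪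
          {w | t ≠ 0 ∧ Complex.exp (t * w) ∈ {x | t ≠ 0 ∧ Complex.log (Complex.exp t) = t ∧
            x ∈ ELlevel (Complex.exp t) n}} := by
      have hpow : ∀ x : ℂ, Complex.exp t ^ x = Complex.exp (t * x) := by
        intro x
        rw [Complex.cpow_def_of_ne_zero (Complex.exp_ne_zero _), htl]
      rintro y ((hy | ⟨x, hx, rfl⟩) | ⟨z, hz, _, rfl⟩)
      · exact Or.inl (Or.inl ⟨ht, htl, hy⟩)
      · exact Or.inl (Or.inr ⟨x, ⟨ht, htl, hx⟩, hpow x⟩)
      · refine Or.inr ⟨ht, ht, htl, ?_⟩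
        rw [← hpow]
        exact hz
    have hmono : ∀ K L : Subfield ℂ, K ≤ L →
        ((algebraicClosure K ℂ).toSubfield : Set ℂ) ⊆ (algebraicClosure L ℂ).toSubfield := by
      intro K L hKL y hy
      have hy' : IsIntegral K y := hy
      obtain ⟨p, hp, hp'⟩ := hy'
      refine ⟨p.map (Subfield.inclusion hKL), hp.map _, ?_⟩
      rw [Polynomial.eval₂_map]
      exact hp'
    exact hmono _ _ (Subfield.closure_mono hsub) hx

/-- **Main theorem.**  For all but countably many `a`, and then for all but countably many `b`,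
no exponential-logarithmic tower `EL^{(c)}` contains both `EL^{(a)}` and `EL^{(b)}`. -/
theorem result :
    ∃ N : Set ℂ, N.Countable ∧ ∀ a ∉ N, a ≠ 0 ∧ a ≠ 1 ∧
      ∃ M : Set ℂ, M.Countable ∧ ∀ b ∉ M, b ≠ 0 ∧ b ≠ 1 ∧
        ∀ c : ℂ, c ≠ 0 → c ≠ 1 → ¬ (ELtower a ⊆ ELtower c ∧ ELtower b ⊆ ELtower c) := by
  obtain ⟨T, hT, hcov⟩ := Cov.iUnion cov_level
  -- the values that are locally constant values of members of `T`
  set N₀ : Set ℂ := ⋃ f ∈ T, {a | ∃ t, ∀ᶠ s in 𝓝 t, f s = a} with hN₀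
  have hN₀c : N₀.Countable := by
    refine hT.biUnion (fun f _ => ?_)
    refine Set.PairwiseDisjoint.countable_of_isOpen (α := ℂ)
      (s := fun a : ℂ => {t : ℂ | ∀ᶠ s in 𝓝 t, f s = a}) ?_ ?_ ?_
    · intro a _ b _ hab
      rw [Function.onFun, Set.disjoint_left]
      intro t ht1 ht2
      exact hab ((ht1 : ∀ᶠ s in 𝓝 t, f s = a).self_of_nhds.symm.trans
        (ht2 : ∀ᶠ s in 𝓝 t, f s = b).self_of_nhds)
    · intro a _
      exact isOpen_setOfPred_eventually_nhds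
    · intro a ha
      exact ha
  have hself : ∀ a : ℂ, a ≠ 0 → a ∈ ELtower a := by
    intro a ha
    refine ⟨1, ?_⟩
    have h1 : a ∈ Subfield.closure ((ELlevel a 0 : Set ℂ) ∪ {z | ∃ x ∈ ELlevel a 0, z = a ^ x} ∪
          {w | ∃ y ∈ ELlevel a 0, y ≠ 0 ∧ a ^ w = y}) := by
      refine Subfield.subset_closure (Or.inl (Or.inr ⟨1, Subfield.one_mem _, ?_⟩))
      simp
    exact IntermediateField.algebraMap_mem (algebraicClosure _ ℂ) (⟨a, h1⟩ : Subfield.closure _)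
  -- transfer from towers to the countable family
  have htow : ∀ c : ℂ, c ≠ 0 → c ≠ 1 → ∀ x ∈ ELtower c,
      ∃ f ∈ T, AnalyticAt ℂ f (Complex.log c) ∧ f (Complex.log c) = x := by
    intro c hc0 hc1 x hx
    obtain ⟨n, hn⟩ := hx
    refine hcov (Complex.log c) x (mem_iUnion.2 ⟨n, ?_, ?_, ?_⟩)
    · intro h
      apply hc1
      rw [← Complex.exp_log hc0, h, Complex.exp_zero]
    · rw [Complex.exp_log hc0]
    · rw [Complex.exp_log hc0]
      exact hn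
  refine ⟨N₀ ∪ {0, 1}, hN₀c.union (by simp), ?_⟩
  intro a ha
  have ha0 : a ≠ 0 := fun h => ha (Or.inr (by simp [h]))
  have ha1 : a ≠ 1 := fun h => ha (Or.inr (by simp [h]))
  refine ⟨ha0, ha1, ?_⟩
  have haN : ∀ f ∈ T, ∀ t, ¬ ∀ᶠ s in 𝓝 t, f s = a := by
    intro f hf t h
    exact ha (Or.inl (mem_biUnion hf ⟨t, h⟩))
  set S : Set ℂ := ⋃ f ∈ T, {t | AnalyticAt ℂ f t ∧ f t = a} with hS
  have hSc : S.Countable := by
    refine hT.biUnion (fun f hf => ?_)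
    obtain ⟨t, hts, htc, ht⟩ := TopologicalSpace.countable_cover_nhdsWithin
      (f := fun z : ℂ => ({z} : Set ℂ)) (s := {t | AnalyticAt ℂ f t ∧ f t = a}) (by
        rintro z ⟨hz1, hz2⟩
        rcases hz1.eventually_eq_or_eventually_ne (g := fun _ => a) analyticAt_const with h | h
        · exact absurd h (haN f hf z)
        · rw [eventually_nhdsWithin_iff] at h
          rw [mem_nhdsWithin_iff_eventually]
          filter_upwards [h] with y hy hy'
          by_contra hne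
          exact hy hne hy'.2)
    refine Countable.mono ht ?_
    exact htc.biUnion (fun z _ => countable_singleton z)
  refine ⟨(⋃ t ∈ S, (fun f : ℂ → ℂ => f t) '' T) ∪ {0, 1}, ?_, ?_⟩
  · exact (hSc.biUnion (fun t _ => hT.image _)).union (by simp)
  · intro b hb
    refine ⟨fun h => hb (Or.inr (by simp [h])), fun h => hb (Or.inr (by simp [h])), ?_⟩
    rintro c hc0 hc1 ⟨hac, hbc⟩
    have hb0 : b ≠ 0 := fun h => hb (Or.inr (by simp [h]))
    obtain ⟨f, hf, hfa, hft⟩ := htow c hc0 hc1 a (hac (hself a ha0))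
    obtain ⟨g, hg, hga, hgt⟩ := htow c hc0 hc1 b (hbc (hself b hb0))
    apply hb
    left
    exact mem_biUnion (mem_biUnion hf ⟨hfa, hft⟩) ⟨g, hg, hgt⟩

end Pool.Agent.Results.MP_21d915_nt.NoCommonTower
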